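import Mathlib

set_option autoImplicit false

/-! Upward planar grid drawings of digraphs: poly-line and straight-line, area, and the
extremal functions `A_p(n)`, `A_s(n)` over upward planar bipartite DAGs. -/

namespace Pool.Agent.R32.BipDag

/-- A digraph `R` on `V` is a bipartite DAG if the vertices can be split into two classes
(`s v = true`, `s v = false`) so that every edge goes from the first class to the second. -/
def IsBipartiteDag {V : Type*} (R : V → V → Prop) : Prop :=
  ∃ s : V → Bool, ∀ u v, R u v → s u = true ∧ s v = false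

/-- The grid point `(x, y)` as a point of the plane `ℂ = ℝ²`. -/
noncomputable def toC (p : ℤ × ℤ) : ℂ := ⟨(p.1 : ℝ), (p.2 : ℝ)⟩

/-- The polygonal chain with the given list of grid points as its successive corners. -/
noncomputable def chain : List (ℤ × ℤ) → Set ℂ
  | [] => ∅
  | [p] => {toC p}
  | p :: q :: l => segment ℝ (toC p) (toC q) ∪ chain (q :: l)

/-- A poly-line upward planar grid drawing of the digraph `R`: distinct grid points for the
vertices, and for every edge `(u,v)` a polygonal chain from `u` to `v` with corners
`pos u, bends u v, pos v` on grid points whose `y`-coordinate strictly increases; two different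
edges meet only at a common endpoint, and an edge passes through no vertex other than its
endpoints. -/
structure UpwardDrawing {V : Type*} (R : V → V → Prop) where
  pos : V → ℤ × ℤ
  bends : V → V → List (ℤ × ℤ)
  pos_inj : Function.Injective pos
  upward : ∀ u v, R u v →
    List.IsChain (fun p q : ℤ × ℤ => p.2 < q.2) (pos u :: (bends u v ++ [pos v]))
  noncross : ∀ u v u' v', R u v → R u' v' → (u, v) ≠ (u', v') →
    ∀ z ∈ chain (pos u :: (bends u v ++ [pos v])),
      z ∈ chain (pos u' :: (bends u' v' ++ [pos v'])) →
        ∃ w, (w = u ∨ w = v) ∧ (w = u' ∨ w = v') ∧ z = toC (pos w)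
  avoid : ∀ u v, R u v → ∀ w, toC (pos w) ∈ chain (pos u :: (bends u v ++ [pos v])) →
    w = u ∨ w = v

/-- The drawing is straight-line: no edge has a bend. -/
def UpwardDrawing.Straight {V : Type*} {R : V → V → Prop} (D : UpwardDrawing R) : Prop :=
  ∀ u v, R u v → D.bends u v = []

/-- The drawing lies in some axis-parallel rectangle of width `W` and height `H`. -/
def UpwardDrawing.Fits {V : Type*} {R : V → V → Prop} (D : UpwardDrawing R) (W H : ℕ) : Prop :=
  ∃ x y : ℤ,
    (∀ v, x ≤ (D.pos v).1 ∧ (D.pos v).1 ≤ x + W ∧ y ≤ (D.pos v).2 ∧ (D.pos v).2 ≤ y + H) ∧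
    ∀ u v, R u v → ∀ p ∈ D.bends u v, x ≤ p.1 ∧ p.1 ≤ x + W ∧ y ≤ p.2 ∧ p.2 ≤ y + H

/-- The minimum area of a poly-line upward planar grid drawing of `R`. -/
noncomputable def minAreaPoly {V : Type*} (R : V → V → Prop) : ℕ :=
  sInf {a : ℕ | ∃ (D : UpwardDrawing R) (W H : ℕ), D.Fits W H ∧ a = W * H}

/-- The minimum area of a straight-line upward planar grid drawing of `R`. -/
noncomputable def minAreaStraight {V : Type*} (R : V → V → Prop) : ℕ :=
  sInf {a : ℕ | ∃ (D : UpwardDrawing R) (W H : ℕ), D.Straight ∧ D.Fits W H ∧ a = W * H}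

/-- `A_p(n)`: the maximum, over the `n`-vertex bipartite DAGs that admit an upward planar
drawing, of the minimum area of a poly-line upward planar grid drawing. -/
noncomputable def Ap (n : ℕ) : ℕ :=
  sSup {a : ℕ | ∃ R : Fin n → Fin n → Prop, IsBipartiteDag R ∧ Nonempty (UpwardDrawing R) ∧
    a = minAreaPoly R}

/-- `A_s(n)`: the maximum, over the `n`-vertex bipartite DAGs that admit a straight-line upward
planar grid drawing, of the minimum area of such a drawing. -/
noncomputable def As (n : ℕ) : ℕ :=
  sSup {a : ℕ | ∃ R : Fin n → Fin n → Prop, IsBipartiteDag R ∧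
    (∃ D : UpwardDrawing R, D.Straight) ∧ a = minAreaStraight R}

end Pool.Agent.R32.BipDag
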