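import Pool.Agent.R32.BipDag.Defs

set_option autoImplicit false

/-! The nested family of bipartite DAGs and an upward planar straight-line grid drawing. -/

namespace Pool.Agent.R32.BipDag

/-- The ten base edges. -/
def E0 : List (ℕ × ℕ) :=
  [(0,1),(0,2),(3,1),(3,2),(0,4),(7,4),(5,1),(5,8),(6,2),(6,9)]

/-- The infinite digraph on `ℕ`: all translates by multiples of `7` of the base edges. -/
def Rel (u v : ℕ) : Prop := ∃ j : ℕ, ∃ e ∈ E0, u = 7 * j + e.1 ∧ v = 7 * j + e.2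

def side (u : ℕ) : Bool := u % 7 = 0 ∨ u % 7 = 3 ∨ u % 7 = 5 ∨ u % 7 = 6

lemma rel_side {u v : ℕ} (h : Rel u v) : side u = true ∧ side v = false := by
  obtain ⟨j, e, he, rfl, rfl⟩ := h
  simp only [E0, List.mem_cons, List.not_mem_nil, or_false] at he
  rcases he with rfl|rfl|rfl|rfl|rfl|rfl|rfl|rfl|rfl|rfl <;>
    simp [side, Nat.add_mod]

/-- Positions. -/
def P (n : ℕ) : ℤ × ℤ :=
  match n % 7 with
  | 0 => (0, -8 * (n / 7 : ℕ) - 8)
  | 1 => (-8 * (n / 7 : ℕ) - 8, 12 * (n / 7 : ℕ) + 12)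
  | 2 => (8 * (n / 7 : ℕ) + 8, 12 * (n / 7 : ℕ) + 12)
  | 3 => (0, 4 * (n / 7 : ℕ) + 4)
  | 4 => (4, -8 * (n / 7 : ℕ) - 2)
  | 5 => (-8 * (n / 7 : ℕ) - 8, 12 * (n / 7 : ℕ) + 8)
  | _ => (8 * (n / 7 : ℕ) + 8, 12 * (n / 7 : ℕ) + 8)

lemma dm (j r : ℕ) (hr : r < 7) : (7 * j + r) % 7 = r ∧ (7 * j + r) / 7 = j := by omega

lemma P0 (j : ℕ) : P (7 * j + 0) = (0, -8 * (j : ℤ) - 8) := by
  unfold P; rw [(dm j 0 (by norm_num)).1, (dm j 0 (by norm_num)).2]; rfl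
lemma P1 (j : ℕ) : P (7 * j + 1) = (-8 * (j : ℤ) - 8, 12 * (j : ℤ) + 12) := by
  unfold P; rw [(dm j 1 (by norm_num)).1, (dm j 1 (by norm_num)).2]; rfl
lemma P2 (j : ℕ) : P (7 * j + 2) = (8 * (j : ℤ) + 8, 12 * (j : ℤ) + 12) := by
  unfold P; rw [(dm j 2 (by norm_num)).1, (dm j 2 (by norm_num)).2]; rfl
lemma P3 (j : ℕ) : P (7 * j + 3) = (0, 4 * (j : ℤ) + 4) := by
  unfold P; rw [(dm j 3 (by norm_num)).1, (dm j 3 (by norm_num)).2]; rfl
lemma P4 (j : ℕ) : P (7 * j + 4) = (4, -8 * (j : ℤ) - 2) := by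
  unfold P; rw [(dm j 4 (by norm_num)).1, (dm j 4 (by norm_num)).2]; rfl
lemma P5 (j : ℕ) : P (7 * j + 5) = (-8 * (j : ℤ) - 8, 12 * (j : ℤ) + 8) := by
  unfold P; rw [(dm j 5 (by norm_num)).1, (dm j 5 (by norm_num)).2]; rfl
lemma P6 (j : ℕ) : P (7 * j + 6) = (8 * (j : ℤ) + 8, 12 * (j : ℤ) + 8) := by
  unfold P; rw [(dm j 6 (by norm_num)).1, (dm j 6 (by norm_num)).2]; rfl
lemma P7 (j : ℕ) : P (7 * j + 7) = (0, -8 * (j : ℤ) - 16) := by
  rw [show 7 * j + 7 = 7 * (j + 1) + 0 by ring, P0]; push_cast; ring_nf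
lemma P8 (j : ℕ) : P (7 * j + 8) = (-8 * (j : ℤ) - 16, 12 * (j : ℤ) + 24) := by
  rw [show 7 * j + 8 = 7 * (j + 1) + 1 by ring, P1]; push_cast; ring_nf
lemma P9 (j : ℕ) : P (7 * j + 9) = (8 * (j : ℤ) + 16, 12 * (j : ℤ) + 24) := by
  rw [show 7 * j + 9 = 7 * (j + 1) + 2 by ring, P2]; push_cast; ring_nf

lemma exists_dm (n : ℕ) : ∃ j r, r < 7 ∧ n = 7 * j + r := ⟨n / 7, n % 7, by omega, by omega⟩

lemma P_inj : Function.Injective P := by
  intro a b hab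
  obtain ⟨i, r, hr, rfl⟩ := exists_dm a
  obtain ⟨j, s, hs, rfl⟩ := exists_dm b
  interval_cases r <;> interval_cases s <;>
    simp only [P0, P1, P2, P3, P4, P5, P6, Prod.mk.injEq] at hab <;> omega

lemma mem_seg {p q : ℤ × ℤ} {z : ℂ} (h : z ∈ segment ℝ (toC p) (toC q)) :
    ∃ t : ℝ, 0 ≤ t ∧ t ≤ 1 ∧ z.re = (1 - t) * p.1 + t * q.1 ∧ z.im = (1 - t) * p.2 + t * q.2 := by
  obtain ⟨a, b, ha, hb, hab, rfl⟩ := h
  have ha' : a = 1 - b := by linarith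
  subst ha'
  exact ⟨b, hb, by linarith, by simp [toC], by simp [toC]⟩

/-- Linear description of the points of edge number `e` at level `I = j + 1`. -/
def Lin (e : ℕ × ℕ) (I x y : ℝ) : Prop :=
  if e = (0,1) then x ≤ 0 ∧ -8*I ≤ x ∧ y = -8*I - 5/2*x
  else if e = (0,2) then 0 ≤ x ∧ x ≤ 8*I ∧ y = -8*I + 5/2*x
  else if e = (3,1) then -8*I ≤ x ∧ x ≤ 0 ∧ y = 4*I - x
  else if e = (3,2) then 0 ≤ x ∧ x ≤ 8*I ∧ y = 4*I + x
  else if e = (0,4) then 0 ≤ x ∧ x ≤ 4 ∧ y = -8*I + 3/2*x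
  else if e = (7,4) then 0 ≤ x ∧ x ≤ 4 ∧ y = -8*I - 8 + 7/2*x
  else if e = (5,1) then x = -8*I ∧ 12*I-4 ≤ y ∧ y ≤ 12*I
  else if e = (5,8) then -8*I-8 ≤ x ∧ x ≤ -8*I ∧ y = 12*I-4-2*(x+8*I)
  else if e = (6,2) then x = 8*I ∧ 12*I-4 ≤ y ∧ y ≤ 12*I
  else if e = (6,9) then 8*I ≤ x ∧ x ≤ 8*I+8 ∧ y = 12*I-4+2*(x-8*I)
  else False

lemma lin_of_mem (e : ℕ × ℕ) (he : e ∈ E0) (j : ℕ) (z : ℂ)
    (h : z ∈ segment ℝ (toC (P (7 * j + e.1))) (toC (P (7 * j + e.2)))) :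
    Lin e ((j : ℝ) + 1) z.re z.im := by
  obtain ⟨t, h0, h1, hx, hy⟩ := mem_seg h
  have hj : (0 : ℝ) ≤ (j : ℝ) := Nat.cast_nonneg j
  have hjt : 0 ≤ (j : ℝ) * t := mul_nonneg hj h0
  have hjt' : 0 ≤ (j : ℝ) * (1 - t) := mul_nonneg hj (by linarith)
  simp only [E0, List.mem_cons, List.not_mem_nil, or_false] at he
  rcases he with rfl|rfl|rfl|rfl|rfl|rfl|rfl|rfl|rfl|rfl <;>
    simp only [P0, P1, P2, P3, P4, P5, P6, P7, P8, P9] at hx hy <;> push_cast at hx hy <;>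
    simp [Lin] <;> refine ⟨?_, ?_, ?_⟩ <;> nlinarith

/-- Membership in two different segments forces an endpoint of the first. -/
lemma lin_inter (e f : ℕ × ℕ) (he : e ∈ E0) (hf : f ∈ E0) (i j : ℕ) (hne : ¬ (e = f ∧ i = j))
    (z : ℂ) (h1 : Lin e ((i : ℝ) + 1) z.re z.im) (h2 : Lin f ((j : ℝ) + 1) z.re z.im) :
    z = toC (P (7 * i + e.1)) ∨ z = toC (P (7 * i + e.2)) := by
  have hi : (0 : ℝ) ≤ (i : ℝ) := Nat.cast_nonneg i
  have hj : (0 : ℝ) ≤ (j : ℝ) := Nat.cast_nonneg j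
  simp only [Complex.ext_iff, toC]
  simp only [E0, List.mem_cons, List.not_mem_nil, or_false] at he hf
  generalize z.re = x at *
  generalize z.im = y at *
  rcases Nat.lt_trichotomy i j with hij | hij | hij
  · have hij' : (i : ℝ) + 1 ≤ (j : ℝ) := by exact_mod_cast hij
    clear hne
    rcases he with rfl|rfl|rfl|rfl|rfl|rfl|rfl|rfl|rfl|rfl <;>
    rcases hf with rfl|rfl|rfl|rfl|rfl|rfl|rfl|rfl|rfl|rfl <;>
    simp only [P0, P1, P2, P3, P4, P5, P6, P7, P8, P9] <;> push_cast <;>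
    simp [Lin] at h1 h2 <;> obtain ⟨a1, a2, a3⟩ := h1 <;> obtain ⟨b1, b2, b3⟩ := h2 <;>
    first
      | (exfalso; linarith)
      | (left; constructor <;> linarith)
      | (right; constructor <;> linarith)
  · subst hij
    rcases he with rfl|rfl|rfl|rfl|rfl|rfl|rfl|rfl|rfl|rfl <;>
    rcases hf with rfl|rfl|rfl|rfl|rfl|rfl|rfl|rfl|rfl|rfl <;>
    first
      | (exfalso; exact hne ⟨rfl, rfl⟩)
      | (clear hne
         simp only [P0, P1, P2, P3, P4, P5, P6, P7, P8, P9]; push_cast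
         simp [Lin] at h1 h2; obtain ⟨a1, a2, a3⟩ := h1; obtain ⟨b1, b2, b3⟩ := h2
         first
          | (exfalso; linarith)
          | (left; constructor <;> linarith)
          | (right; constructor <;> linarith))
  · have hij' : (j : ℝ) + 1 ≤ (i : ℝ) := by exact_mod_cast hij
    clear hne
    rcases he with rfl|rfl|rfl|rfl|rfl|rfl|rfl|rfl|rfl|rfl <;>
    rcases hf with rfl|rfl|rfl|rfl|rfl|rfl|rfl|rfl|rfl|rfl <;>
    simp only [P0, P1, P2, P3, P4, P5, P6, P7, P8, P9] <;> push_cast <;>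
    simp [Lin] at h1 h2 <;> obtain ⟨a1, a2, a3⟩ := h1 <;> obtain ⟨b1, b2, b3⟩ := h2 <;>
    first
      | (exfalso; linarith)
      | (left; constructor <;> linarith)
      | (right; constructor <;> linarith)

lemma toC_inj : Function.Injective toC := by
  intro p q h
  simp only [toC, Complex.mk.injEq, Int.cast_inj] at h
  exact Prod.ext h.1 h.2

lemma edge_unique {e f : ℕ × ℕ} (he : e ∈ E0) (hf : f ∈ E0) {i j : ℕ}
    (h : (7 * i + e.1, 7 * i + e.2) = (7 * j + f.1, 7 * j + f.2)) : e = f ∧ i = j := by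
  simp only [E0, List.mem_cons, List.not_mem_nil, or_false] at he hf
  simp only [Prod.mk.injEq] at h
  rcases he with rfl|rfl|rfl|rfl|rfl|rfl|rfl|rfl|rfl|rfl <;>
  rcases hf with rfl|rfl|rfl|rfl|rfl|rfl|rfl|rfl|rfl|rfl <;>
  simp at h ⊢ <;> omega

lemma seg_inter {u v u' v' : ℕ} (h : Rel u v) (h' : Rel u' v') (hne : (u, v) ≠ (u', v')) (z : ℂ)
    (hz : z ∈ segment ℝ (toC (P u)) (toC (P v))) (hz' : z ∈ segment ℝ (toC (P u')) (toC (P v'))) :
    z = toC (P u) ∨ z = toC (P v) := by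
  obtain ⟨i, e, he, rfl, rfl⟩ := h
  obtain ⟨j, f, hf, rfl, rfl⟩ := h'
  refine lin_inter e f he hf i j ?_ z (lin_of_mem e he i z hz) (lin_of_mem f hf j z hz')
  rintro ⟨rfl, rfl⟩
  exact hne rfl

lemma seg_common {u v u' v' : ℕ} (h : Rel u v) (h' : Rel u' v') (hne : (u, v) ≠ (u', v')) (z : ℂ)
    (hz : z ∈ segment ℝ (toC (P u)) (toC (P v))) (hz' : z ∈ segment ℝ (toC (P u')) (toC (P v'))) :
    ∃ w, (w = u ∨ w = v) ∧ (w = u' ∨ w = v') ∧ z = toC (P w) := by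
  have key : ∀ a b : ℕ, toC (P a) = toC (P b) → a = b := fun a b h => P_inj (toC_inj h)
  rcases seg_inter h h' hne z hz hz' with h1 | h1 <;>
  rcases seg_inter h' h hne.symm z hz' hz with h2 | h2
  · exact ⟨u, Or.inl rfl, Or.inl (key _ _ (h1.symm.trans h2)), h1⟩
  · exact ⟨u, Or.inl rfl, Or.inr (key _ _ (h1.symm.trans h2)), h1⟩
  · exact ⟨v, Or.inr rfl, Or.inl (key _ _ (h1.symm.trans h2)), h1⟩
  · exact ⟨v, Or.inr rfl, Or.inr (key _ _ (h1.symm.trans h2)), h1⟩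

/-- every vertex of the infinite graph is on an edge -/
lemma exists_edge (w : ℕ) : ∃ u v, Rel u v ∧ (w = u ∨ w = v) := by
  obtain ⟨j, r, hr, rfl⟩ := exists_dm w
  interval_cases r
  · exact ⟨7 * j + 0, 7 * j + 1, ⟨j, (0, 1), by simp [E0], rfl, rfl⟩, Or.inl rfl⟩
  · exact ⟨7 * j + 0, 7 * j + 1, ⟨j, (0, 1), by simp [E0], rfl, rfl⟩, Or.inr rfl⟩
  · exact ⟨7 * j + 0, 7 * j + 2, ⟨j, (0, 2), by simp [E0], rfl, rfl⟩, Or.inr rfl⟩
  · exact ⟨7 * j + 3, 7 * j + 1, ⟨j, (3, 1), by simp [E0], rfl, rfl⟩, Or.inl rfl⟩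
  · exact ⟨7 * j + 0, 7 * j + 4, ⟨j, (0, 4), by simp [E0], rfl, rfl⟩, Or.inr rfl⟩
  · exact ⟨7 * j + 5, 7 * j + 1, ⟨j, (5, 1), by simp [E0], rfl, rfl⟩, Or.inl rfl⟩
  · exact ⟨7 * j + 6, 7 * j + 2, ⟨j, (6, 2), by simp [E0], rfl, rfl⟩, Or.inl rfl⟩

lemma seg_avoid {u v : ℕ} (h : Rel u v) (w : ℕ)
    (hz : toC (P w) ∈ segment ℝ (toC (P u)) (toC (P v))) : w = u ∨ w = v := by
  have key : ∀ a b : ℕ, toC (P a) = toC (P b) → a = b := fun a b h => P_inj (toC_inj h)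
  obtain ⟨u', v', h', hw⟩ := exists_edge w
  by_cases hne : (u, v) = (u', v')
  · simp only [Prod.mk.injEq] at hne
    obtain ⟨rfl, rfl⟩ := hne
    exact hw
  · have hz' : toC (P w) ∈ segment ℝ (toC (P u')) (toC (P v')) := by
      rcases hw with rfl | rfl
      · exact left_mem_segment _ _ _
      · exact right_mem_segment _ _ _
    rcases seg_inter h h' hne _ hz hz' with h1 | h1
    · exact Or.inl (key _ _ h1)
    · exact Or.inr (key _ _ h1)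

lemma up {u v : ℕ} (h : Rel u v) : (P u).2 < (P v).2 := by
  obtain ⟨j, e, he, rfl, rfl⟩ := h
  simp only [E0, List.mem_cons, List.not_mem_nil, or_false] at he
  rcases he with rfl|rfl|rfl|rfl|rfl|rfl|rfl|rfl|rfl|rfl <;>
    simp only [P0, P1, P2, P3, P4, P5, P6, P7, P8, P9] <;> omega

/-- The `n`-vertex member of the family. -/
def G (n : ℕ) (u v : Fin n) : Prop := Rel u v

lemma G_bip (n : ℕ) : IsBipartiteDag (G n) := ⟨fun v => side v, fun _ _ h => rel_side h⟩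

lemma chain_two (p q : ℤ × ℤ) : chain (p :: ([] ++ [q])) = segment ℝ (toC p) (toC q) := by
  simp [chain]
  exact right_mem_segment _ _ _

noncomputable def drawing (n : ℕ) : UpwardDrawing (G n) where
  pos v := P v
  bends _ _ := []
  pos_inj := fun a b h => Fin.ext (P_inj h)
  upward u v h := by
    simp only [List.nil_append, List.isChain_cons_cons, List.isChain_singleton, and_true]
    exact up h
  noncross u v u' v' h h' hne z hz hz' := by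
    rw [chain_two] at hz hz'
    obtain ⟨w, h1, h2, h3⟩ := seg_common h h' (by
      intro e; apply hne
      simp only [Prod.mk.injEq] at e ⊢
      exact ⟨Fin.ext e.1, Fin.ext e.2⟩) z hz hz'
    rcases h1 with rfl | rfl
    · refine ⟨u, Or.inl rfl, ?_, h3⟩
      rcases h2 with h2 | h2
      · exact Or.inl (Fin.ext h2)
      · exact Or.inr (Fin.ext h2)
    · refine ⟨v, Or.inr rfl, ?_, h3⟩
      rcases h2 with h2 | h2
      · exact Or.inl (Fin.ext h2)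
      · exact Or.inr (Fin.ext h2)
  avoid u v h w hz := by
    rw [chain_two] at hz
    rcases seg_avoid h w hz with h1 | h1
    · exact Or.inl (Fin.ext h1)
    · exact Or.inr (Fin.ext h1)

lemma drawing_straight (n : ℕ) : (drawing n).Straight := fun _ _ _ => rfl

end Pool.Agent.R32.BipDag
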