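import Pool.Agent.R32.BipDag.Draw
import Pool.Agent.Helper479.Bond.VK

set_option autoImplicit false

/-! The lower bound: in every poly-line upward drawing the bounding boxes of the nested cycles
are strictly nested around the middle cycle. -/

namespace Pool.Agent.R32.BipDag

open Set

/-! ### chains -/

lemma mem_chain_of_mem {l : List (ℤ × ℤ)} {p : ℤ × ℤ} (h : p ∈ l) : toC p ∈ chain l := by
  induction l with
  | nil => simp at h
  | cons a l ih =>
    cases l with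
    | nil =>
      simp only [List.mem_singleton] at h
      subst h; simp [chain]
    | cons b l =>
      rcases List.mem_cons.mp h with rfl | h
      · exact Or.inl (left_mem_segment _ _ _)
      · exact Or.inr (ih h)

lemma segment_pathConnected (a b : ℂ) : IsPathConnected (segment ℝ a b) :=
  Convex.isPathConnected (convex_segment a b) ⟨a, left_mem_segment _ _ _⟩

lemma chain_pathConnected (p : ℤ × ℤ) (l : List (ℤ × ℤ)) : IsPathConnected (chain (p :: l)) := by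
  induction l generalizing p with
  | nil => exact isPathConnected_singleton _
  | cons q l ih =>
    refine IsPathConnected.union (segment_pathConnected _ _) (ih q) ?_
    exact ⟨toC q, right_mem_segment _ _ _, mem_chain_of_mem (by simp)⟩

lemma chain_subset {l : List (ℤ × ℤ)} {S : Set ℂ} (hS : Convex ℝ S)
    (h : ∀ p ∈ l, toC p ∈ S) : chain l ⊆ S := by
  induction l with
  | nil => simp [chain]
  | cons a l ih =>
    cases l with
    | nil => simpa [chain] using h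
    | cons b l =>
      refine union_subset ?_ (ih fun p hp => h p (List.mem_cons_of_mem _ hp))
      exact hS.segment_subset (h a (by simp)) (h b (by simp))

/-! ### leaving a box -/

def Box (x0 x1 y0 y1 : ℝ) : Set ℂ := {z | x0 ≤ z.re ∧ z.re ≤ x1 ∧ y0 ≤ z.im ∧ z.im ≤ y1}

lemma box_convex (x0 x1 y0 y1 : ℝ) : Convex ℝ (Box x0 x1 y0 y1) := by
  have : Box x0 x1 y0 y1 = {z : ℂ | x0 ≤ z.re} ∩ {z : ℂ | z.re ≤ x1} ∩ {z : ℂ | y0 ≤ z.im} ∩
      {z : ℂ | z.im ≤ y1} := by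
    ext z; simp [Box, and_assoc]
  rw [this]
  exact (((convex_halfSpace_re_ge x0).inter (convex_halfSpace_re_le x1)).inter
    (convex_halfSpace_im_ge y0)).inter (convex_halfSpace_im_le y1)

def Outside (x0 x1 y0 y1 : ℝ) : Set ℂ := {z | z.re < x0 ∨ x1 < z.re ∨ z.im < y0 ∨ y1 < z.im}

lemma outside_pathConnected (x0 x1 y0 y1 : ℝ) : IsPathConnected (Outside x0 x1 y0 y1) := by
  have : Outside x0 x1 y0 y1 = (({z : ℂ | z.re < x0} ∪ {z : ℂ | y1 < z.im}) ∪
      {z : ℂ | x1 < z.re}) ∪ {z : ℂ | z.im < y0} := by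
    ext z; simp only [Outside, mem_setOf_eq, mem_union]; tauto
  rw [this]
  have a1 : IsPathConnected {z : ℂ | z.re < x0} :=
    (convex_halfSpace_re_lt x0).isPathConnected ⟨⟨x0 - 1, 0⟩, by simp⟩
  have a2 : IsPathConnected {z : ℂ | y1 < z.im} :=
    (convex_halfSpace_im_gt y1).isPathConnected ⟨⟨0, y1 + 1⟩, by simp⟩
  have a3 : IsPathConnected {z : ℂ | x1 < z.re} :=
    (convex_halfSpace_re_gt x1).isPathConnected ⟨⟨x1 + 1, 0⟩, by simp⟩
  have a4 : IsPathConnected {z : ℂ | z.im < y0} :=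
    (convex_halfSpace_im_lt y0).isPathConnected ⟨⟨0, y0 - 1⟩, by simp⟩
  refine IsPathConnected.union (IsPathConnected.union (IsPathConnected.union a1 a2 ?_) a3 ?_)
    a4 ?_
  · exact ⟨⟨x0 - 1, y1 + 1⟩, by simp, by simp⟩
  · exact ⟨⟨x1 + 1, y1 + 1⟩, Or.inr (by simp), by simp⟩
  · exact ⟨⟨x1 + 1, y0 - 1⟩, Or.inr (by simp), by simp⟩

lemma escape {K : Set ℂ} {x0 x1 y0 y1 : ℝ} (hK : K ⊆ Box x0 x1 y0 y1) {z : ℂ} (hz : z ∉ K)
    (h : z.re ≤ x0 ∨ x1 ≤ z.re ∨ z.im ≤ y0 ∨ y1 ≤ z.im) :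
    ∃ w ∈ Outside x0 x1 y0 y1, JoinedIn Kᶜ z w := by
  have key : ∀ d : ℂ, z + d ∈ Outside x0 x1 y0 y1 →
      (∀ b : ℝ, 0 < b → b ≤ 1 → z + b * d ∉ Box x0 x1 y0 y1) →
      ∃ w ∈ Outside x0 x1 y0 y1, JoinedIn Kᶜ z w := by
    intro d hd hb
    refine ⟨z + d, hd, ?_⟩
    have hseg : segment ℝ z (z + d) ⊆ Kᶜ := by
      rintro w ⟨a, b, ha, hb0, hab, rfl⟩
      have hw : a • z + b • (z + d) = z + b * d := by
        have : a = 1 - b := by linarith
        subst this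
        simp only [Complex.real_smul]; push_cast; ring
      rw [hw]
      rcases hb0.eq_or_lt with rfl | hb0
      · simpa using hz
      · exact fun hmem => hb b hb0 (by linarith) (hK hmem)
    exact ((segment_pathConnected z (z + d)).joinedIn z (left_mem_segment _ _ _) (z + d)
      (right_mem_segment _ _ _)).mono hseg
  rcases h with h | h | h | h
  · refine key (-1) (Or.inl (by simp; linarith)) fun b hb _ hm => ?_
    have := hm.1
    simp at this; linarith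
  · refine key 1 (Or.inr (Or.inl (by simp; linarith))) fun b hb _ hm => ?_
    have := hm.2.1
    simp at this; linarith
  · refine key (-Complex.I) (Or.inr (Or.inr (Or.inl (by simp; linarith)))) fun b hb _ hm => ?_
    have := hm.2.2.1
    simp at this; linarith
  · refine key Complex.I (Or.inr (Or.inr (Or.inr (by simp; linarith)))) fun b hb _ hm => ?_
    have := hm.2.2.2
    simp at this; linarith

lemma outside_subset {K : Set ℂ} {x0 x1 y0 y1 : ℝ} (hK : K ⊆ Box x0 x1 y0 y1) :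
    Outside x0 x1 y0 y1 ⊆ Kᶜ := by
  intro z hz hzK
  have := hK hzK
  simp only [Box, Outside, mem_setOf_eq] at this hz
  rcases hz with h | h | h | h <;> linarith [this.1, this.2.1, this.2.2.1, this.2.2.2]

lemma joined_outside {K : Set ℂ} {x0 x1 y0 y1 : ℝ} (hK : K ⊆ Box x0 x1 y0 y1) {z w : ℂ}
    (hz : z ∉ K) (hw : w ∉ K)
    (h : z.re ≤ x0 ∨ x1 ≤ z.re ∨ z.im ≤ y0 ∨ y1 ≤ z.im)
    (h' : w.re ≤ x0 ∨ x1 ≤ w.re ∨ w.im ≤ y0 ∨ y1 ≤ w.im) : JoinedIn Kᶜ z w := by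
  obtain ⟨z', hz', hjz⟩ := escape hK hz h
  obtain ⟨w', hw', hjw⟩ := escape hK hw h'
  exact (hjz.trans (((outside_pathConnected x0 x1 y0 y1).joinedIn z' hz' w' hw').mono
    (outside_subset hK))).trans hjw.symm

/-! ### the topological core -/

section core

variable (C : ℕ → ℕ → Set ℂ)

/-- union of the curves of a list of edges, shifted to level `j` -/
def Ul (j : ℕ) (L : List (ℕ × ℕ)) : Set ℂ := ⋃ e ∈ L, C (7 * j + e.1) (7 * j + e.2)

/-- the cycle of level `j` -/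
def K (j : ℕ) : Set ℂ := Ul C j [(0,1),(0,2),(3,1),(3,2)]

def E1 : List (ℕ × ℕ) :=
  [(0,1),(0,2),(3,1),(3,2),(0,4),(7,4),(5,1),(5,8),(6,2),(6,9),
   (7,8),(7,9),(10,8),(10,9),(7,11),(14,11),(12,8),(12,15),(13,9),(13,16),
   (14,15),(14,16),(17,15),(17,16)]

lemma rel_E1 {e : ℕ × ℕ} (he : e ∈ E1) (j : ℕ) : Rel (7 * j + e.1) (7 * j + e.2) := by
  simp only [E1, List.mem_cons, List.not_mem_nil, or_false] at he
  rcases he with rfl|rfl|rfl|rfl|rfl|rfl|rfl|rfl|rfl|rfl|rfl|rfl|rfl|rfl|rfl|rfl|rfl|rfl|rfl|rfl|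
    rfl|rfl|rfl|rfl
  · exact ⟨j, (0, 1), by simp [E0], by ring, by ring⟩
  · exact ⟨j, (0, 2), by simp [E0], by ring, by ring⟩
  · exact ⟨j, (3, 1), by simp [E0], by ring, by ring⟩
  · exact ⟨j, (3, 2), by simp [E0], by ring, by ring⟩
  · exact ⟨j, (0, 4), by simp [E0], by ring, by ring⟩
  · exact ⟨j, (7, 4), by simp [E0], by ring, by ring⟩
  · exact ⟨j, (5, 1), by simp [E0], by ring, by ring⟩
  · exact ⟨j, (5, 8), by simp [E0], by ring, by ring⟩
  · exact ⟨j, (6, 2), by simp [E0], by ring, by ring⟩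
  · exact ⟨j, (6, 9), by simp [E0], by ring, by ring⟩
  · exact ⟨j + 1, (0, 1), by simp [E0], by ring, by ring⟩
  · exact ⟨j + 1, (0, 2), by simp [E0], by ring, by ring⟩
  · exact ⟨j + 1, (3, 1), by simp [E0], by ring, by ring⟩
  · exact ⟨j + 1, (3, 2), by simp [E0], by ring, by ring⟩
  · exact ⟨j + 1, (0, 4), by simp [E0], by ring, by ring⟩
  · exact ⟨j + 1, (7, 4), by simp [E0], by ring, by ring⟩
  · exact ⟨j + 1, (5, 1), by simp [E0], by ring, by ring⟩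
  · exact ⟨j + 1, (5, 8), by simp [E0], by ring, by ring⟩
  · exact ⟨j + 1, (6, 2), by simp [E0], by ring, by ring⟩
  · exact ⟨j + 1, (6, 9), by simp [E0], by ring, by ring⟩
  · exact ⟨j + 2, (0, 1), by simp [E0], by ring, by ring⟩
  · exact ⟨j + 2, (0, 2), by simp [E0], by ring, by ring⟩
  · exact ⟨j + 2, (3, 1), by simp [E0], by ring, by ring⟩
  · exact ⟨j + 2, (3, 2), by simp [E0], by ring, by ring⟩

lemma E1_lt {e : ℕ × ℕ} (he : e ∈ E1) : e.1 < 21 ∧ e.2 < 21 := by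
  simp only [E1, List.mem_cons, List.not_mem_nil, or_false] at he
  rcases he with rfl|rfl|rfl|rfl|rfl|rfl|rfl|rfl|rfl|rfl|rfl|rfl|rfl|rfl|rfl|rfl|rfl|rfl|rfl|rfl|
    rfl|rfl|rfl|rfl <;> simp

/-- the lists of edges for the nine easy edges of `K₅` -/
def LL : Fin 5 → Fin 5 → List (ℕ × ℕ)
  | 0, 2 => [(0,4),(7,4)]
  | 0, 3 => [(0,1),(5,1),(5,8)]
  | 0, 4 => [(0,2),(6,2),(6,9)]
  | 1, 2 => [(14,11),(7,11)]
  | 1, 3 => [(14,15),(12,15),(12,8)]
  | 1, 4 => [(14,16),(13,16),(13,9)]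
  | 2, 3 => [(7,8)]
  | 2, 4 => [(7,9)]
  | 3, 4 => [(10,8),(10,9)]
  | _, _ => []

def KL : List (ℕ × ℕ) := [(7,8),(7,9),(10,8),(10,9)]

lemma LL_sub : ∀ a b : Fin 5, ∀ e ∈ LL a b, e ∈ E1 := by decide

lemma KL_sub : ∀ e ∈ KL, e ∈ E1 := by decide

lemma LL_K : ∀ a b : Fin 5, a < b → a ≠ 0 → a ≠ 1 → b ≠ 0 → b ≠ 1 → ∀ e ∈ LL a b, e ∈ KL := by
  decide

/-- no common vertex -/
def VD (e f : ℕ × ℕ) : Prop := e.1 ≠ f.1 ∧ e.1 ≠ f.2 ∧ e.2 ≠ f.1 ∧ e.2 ≠ f.2

instance (e f : ℕ × ℕ) : Decidable (VD e f) := by unfold VD; infer_instance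

lemma LL_dis' : ∀ a b c d : Fin 5, (a < b ∧ c < d ∧ a ≠ c ∧ a ≠ d ∧ b ≠ c ∧ b ≠ d) →
    ((LL a b).all fun e => (LL c d).all fun f => decide (VD e f)) = true := by
  decide +kernel

lemma LL_dis (a b c d : Fin 5) (h1 : a < b) (h2 : c < d) (h3 : a ≠ c) (h4 : a ≠ d) (h5 : b ≠ c)
    (h6 : b ≠ d) : ∀ e ∈ LL a b, ∀ f ∈ LL c d, VD e f := by
  intro e he f hf
  have := LL_dis' a b c d ⟨h1, h2, h3, h4, h5, h6⟩
  rw [List.all_eq_true] at this
  have := this e he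
  rw [List.all_eq_true] at this
  exact of_decide_eq_true (this f hf)

variable {C}

lemma Ul_mono {j : ℕ} {L L' : List (ℕ × ℕ)} (h : ∀ e ∈ L, e ∈ L') : Ul C j L ⊆ Ul C j L' := by
  intro z hz
  simp only [Ul, mem_iUnion, exists_prop] at hz ⊢
  obtain ⟨e, he, hz⟩ := hz
  exact ⟨e, h e he, hz⟩

lemma sub_Ul {j : ℕ} {L : List (ℕ × ℕ)} {e : ℕ × ℕ} (h : e ∈ L) :
    C (7 * j + e.1) (7 * j + e.2) ⊆ Ul C j L := by
  intro z hz
  simp only [Ul, mem_iUnion, exists_prop]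
  exact ⟨e, h, hz⟩

/-- the hypotheses on the family of curves -/
structure Good (N : ℕ) (C : ℕ → ℕ → Set ℂ) (Q : ℕ → ℂ) : Prop where
  pc : ∀ u v, Rel u v → u < N → v < N → IsPathConnected (C u v)
  left : ∀ u v, Rel u v → u < N → v < N → Q u ∈ C u v
  right : ∀ u v, Rel u v → u < N → v < N → Q v ∈ C u v
  dis : ∀ u v u' v', Rel u v → Rel u' v' → u < N → v < N → u' < N → v' < N →
    u ≠ u' → u ≠ v' → v ≠ u' → v ≠ v' → Disjoint (C u v) (C u' v')

variable {N : ℕ} {Q : ℕ → ℂ}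

lemma Good.joined (h : Good N C Q) {j : ℕ} (hj : 7 * (j + 3) ≤ N) {L : List (ℕ × ℕ)}
    {e : ℕ × ℕ} (he : e ∈ L) (he1 : e ∈ E1) :
    JoinedIn (Ul C j L) (Q (7 * j + e.1)) (Q (7 * j + e.2)) := by
  have hr := rel_E1 he1 j
  have hl := E1_lt he1
  have h1 : 7 * j + e.1 < N := by omega
  have h2 : 7 * j + e.2 < N := by omega
  exact ((h.pc _ _ hr h1 h2).joinedIn _ (h.left _ _ hr h1 h2) _ (h.right _ _ hr h1 h2)).mono
    (sub_Ul he)

lemma Good.disjoint (h : Good N C Q) {j : ℕ} (hj : 7 * (j + 3) ≤ N) {L L' : List (ℕ × ℕ)}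
    (hL : ∀ e ∈ L, e ∈ E1) (hL' : ∀ e ∈ L', e ∈ E1) (hd : ∀ e ∈ L, ∀ f ∈ L', VD e f) :
    Disjoint (Ul C j L) (Ul C j L') := by
  rw [Set.disjoint_left]
  intro z hz hz'
  simp only [Ul, mem_iUnion, exists_prop] at hz hz'
  obtain ⟨e, he, hz⟩ := hz
  obtain ⟨f, hf, hz'⟩ := hz'
  obtain ⟨d1, d2, d3, d4⟩ := hd e he f hf
  have le := E1_lt (hL e he)
  have lf := E1_lt (hL' f hf)
  exact Set.disjoint_left.mp (h.dis _ _ _ _ (rel_E1 (hL e he) j) (rel_E1 (hL' f hf) j)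
    (by omega) (by omega) (by omega) (by omega) (by omega) (by omega) (by omega) (by omega))
    hz hz'

lemma K_succ (j : ℕ) : K C (j + 1) = Ul C j KL := by
  simp only [K, Ul, KL, List.mem_cons, List.not_mem_nil, or_false, iUnion_iUnion_eq_or_left,
    iUnion_iUnion_eq_left]
  rfl

/-- The topological core (van Kampen): the cycle of level `j+1` separates level `j` from
level `j+2`. -/
theorem Good.core (h : Good N C Q) {j : ℕ} (hj : 7 * (j + 3) ≤ N) :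
    ¬ JoinedIn (K C (j + 1))ᶜ (Q (7 * j)) (Q (7 * j + 14)) := by
  intro hJ
  rw [K_succ] at hJ
  let S : Fin 5 → Fin 5 → Set ℂ := fun a b =>
    if a = 0 ∧ b = 1 then (Ul C j KL)ᶜ else Ul C j (LL a b)
  let p : Fin 5 → ℂ := ![Q (7 * j), Q (7 * j + 14), Q (7 * j + 7), Q (7 * j + 8), Q (7 * j + 9)]
  have ne : ∀ a b : Fin 5, ¬ (a = 0 ∧ b = 1) → S a b = Ul C j (LL a b) := fun a b hab =>
    if_neg hab
  refine Pool.Agent.Helper479.Bond.VK.k5_joined p S ?_ ?_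
  · intro a b hab
    have J := fun (L : List (ℕ × ℕ)) (e : ℕ × ℕ) (he : e ∈ L) (he1 : e ∈ E1) =>
      h.joined (C := C) (Q := Q) hj he he1
    fin_cases a <;> fin_cases b <;> first | exact absurd hab (by decide) | skip
    · exact hJ
    · rw [ne _ _ (by decide)]
      exact (J _ (0,4) (by decide) (by decide)).trans (J _ (7,4) (by decide) (by decide)).symm
    · rw [ne _ _ (by decide)]
      exact ((J _ (0,1) (by decide) (by decide)).trans
        (J _ (5,1) (by decide) (by decide)).symm).trans (J _ (5,8) (by decide) (by decide))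
    · rw [ne _ _ (by decide)]
      exact ((J _ (0,2) (by decide) (by decide)).trans
        (J _ (6,2) (by decide) (by decide)).symm).trans (J _ (6,9) (by decide) (by decide))
    · rw [ne _ _ (by decide)]
      exact (J _ (14,11) (by decide) (by decide)).trans
        (J _ (7,11) (by decide) (by decide)).symm
    · rw [ne _ _ (by decide)]
      exact ((J _ (14,15) (by decide) (by decide)).trans
        (J _ (12,15) (by decide) (by decide)).symm).trans (J _ (12,8) (by decide) (by decide))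
    · rw [ne _ _ (by decide)]
      exact ((J _ (14,16) (by decide) (by decide)).trans
        (J _ (13,16) (by decide) (by decide)).symm).trans (J _ (13,9) (by decide) (by decide))
    · rw [ne _ _ (by decide)]
      exact J _ (7,8) (by decide) (by decide)
    · rw [ne _ _ (by decide)]
      exact J _ (7,9) (by decide) (by decide)
    · rw [ne _ _ (by decide)]
      exact (J _ (10,8) (by decide) (by decide)).symm.trans (J _ (10,9) (by decide) (by decide))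
  · intro a b c d hab hcd hac had hbc hbd
    by_cases h1 : a = 0 ∧ b = 1
    · have h2 : ¬ (c = 0 ∧ d = 1) := fun h2 => hac (h1.1.trans h2.1.symm)
      rw [ne c d h2, show S a b = (Ul C j KL)ᶜ from if_pos h1]
      refine Disjoint.symm (disjoint_compl_right_iff_subset.mpr (Ul_mono (LL_K c d hcd ?_ ?_ ?_ ?_)))
      · exact fun h => hac (h1.1.trans h.symm)
      · exact fun h => hbc (h1.2.trans h.symm)
      · exact fun h => had (h1.1.trans h.symm)
      · exact fun h => hbd (h1.2.trans h.symm)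
    · by_cases h2 : c = 0 ∧ d = 1
      · rw [ne a b h1, show S c d = (Ul C j KL)ᶜ from if_pos h2]
        refine disjoint_compl_right_iff_subset.mpr (Ul_mono (LL_K a b hab ?_ ?_ ?_ ?_))
        · exact fun h => hac (h.trans h2.1.symm)
        · exact fun h => had (h.trans h2.2.symm)
        · exact fun h => hbc (h.trans h2.1.symm)
        · exact fun h => hbd (h.trans h2.2.symm)
      · rw [ne a b h1, ne c d h2]
        exact h.disjoint hj (LL_sub a b) (LL_sub c d) (LL_dis a b c d hab hcd hac had hbc hbd)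

lemma K_pathConnected (h : Good N C Q) {j : ℕ} (hj : 7 * (j + 1) ≤ N) :
    IsPathConnected (K C j) := by
  have e : K C j = (C (7*j+0) (7*j+1) ∪ C (7*j+0) (7*j+2)) ∪
      (C (7*j+3) (7*j+1) ∪ C (7*j+3) (7*j+2)) := by
    simp only [K, Ul, List.mem_cons, List.not_mem_nil, or_false, iUnion_iUnion_eq_or_left,
      iUnion_iUnion_eq_left, union_assoc]
  have r1 : Rel (7*j+0) (7*j+1) := ⟨j, (0,1), by simp [E0], rfl, rfl⟩
  have r2 : Rel (7*j+0) (7*j+2) := ⟨j, (0,2), by simp [E0], rfl, rfl⟩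
  have r3 : Rel (7*j+3) (7*j+1) := ⟨j, (3,1), by simp [E0], rfl, rfl⟩
  have r4 : Rel (7*j+3) (7*j+2) := ⟨j, (3,2), by simp [E0], rfl, rfl⟩
  rw [e]
  refine IsPathConnected.union (IsPathConnected.union (h.pc _ _ r1 (by omega) (by omega))
    (h.pc _ _ r2 (by omega) (by omega)) ⟨_, h.left _ _ r1 (by omega) (by omega),
      h.left _ _ r2 (by omega) (by omega)⟩) (IsPathConnected.union
    (h.pc _ _ r3 (by omega) (by omega)) (h.pc _ _ r4 (by omega) (by omega))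
      ⟨_, h.left _ _ r3 (by omega) (by omega), h.left _ _ r4 (by omega) (by omega)⟩) ?_
  exact ⟨Q (7*j+1), Or.inl (h.right _ _ r1 (by omega) (by omega)),
    Or.inl (h.right _ _ r3 (by omega) (by omega))⟩

lemma Q_mem_K (h : Good N C Q) {j : ℕ} (hj : 7 * (j + 1) ≤ N) : Q (7 * j) ∈ K C j := by
  have r1 : Rel (7*j+0) (7*j+1) := ⟨j, (0,1), by simp [E0], rfl, rfl⟩
  exact sub_Ul (C := C) (j := j) (e := (0,1)) (by simp)
    (h.left _ _ r1 (by omega) (by omega))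

lemma K_disjoint (h : Good N C Q) {i j : ℕ} (hi : 7 * (i + 1) ≤ N) (hj : 7 * (j + 1) ≤ N)
    (hij : i ≠ j) : Disjoint (K C i) (K C j) := by
  rw [Set.disjoint_left]
  intro z hz hz'
  simp only [K, Ul, mem_iUnion, exists_prop] at hz hz'
  obtain ⟨e, he, hz⟩ := hz
  obtain ⟨f, hf, hz'⟩ := hz'
  have be : e.1 < 7 ∧ e.2 < 7 ∧ e ∈ E0 := by
    simp only [List.mem_cons, List.not_mem_nil, or_false] at he
    rcases he with rfl|rfl|rfl|rfl <;> simp [E0]
  have bf : f.1 < 7 ∧ f.2 < 7 ∧ f ∈ E0 := by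
    simp only [List.mem_cons, List.not_mem_nil, or_false] at hf
    rcases hf with rfl|rfl|rfl|rfl <;> simp [E0]
  exact Set.disjoint_left.mp (h.dis _ _ _ _ ⟨i, e, be.2.2, rfl, rfl⟩ ⟨j, f, bf.2.2, rfl, rfl⟩
    (by omega) (by omega) (by omega) (by omega) (by omega) (by omega) (by omega) (by omega))
    hz hz'

end core

/-! ### the combinatorial induction -/

/-- `N X0 X1 Y0 Y1 a b`: box `b` is strictly inside box `a`. -/
def Nst (X0 X1 Y0 Y1 : ℕ → ℤ) (a b : ℕ) : Prop :=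
  X0 a < X0 b ∧ X1 b < X1 a ∧ Y0 a < Y0 b ∧ Y1 b < Y1 a

lemma chainL {k : ℕ} {X0 X1 Y0 Y1 : ℕ → ℤ}
    (hN : ∀ j, j + 2 < k → Nst X0 X1 Y0 Y1 (j+1) j ∨ Nst X0 X1 Y0 Y1 (j+1) (j+2))
    (hle : ∀ i, i < k → X0 i ≤ X1 i ∧ Y0 i ≤ Y1 i) :
    ∀ j, j + 2 < k → Nst X0 X1 Y0 Y1 (j+1) j →
      2 * ((j:ℤ) + 1) ≤ X1 (j+1) - X0 (j+1) ∧ 2 * ((j:ℤ) + 1) ≤ Y1 (j+1) - Y0 (j+1) := by
  intro j
  induction j with
  | zero =>
    intro hk h
    have := hle 0 (by omega)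
    obtain ⟨a, b, c, d⟩ := h
    simp only [Nat.zero_add] at a b c d ⊢
    push_cast
    constructor <;> omega
  | succ j ih =>
    intro hk h
    have h1 : Nst X0 X1 Y0 Y1 (j+1) j := by
      rcases hN j (by omega) with h' | h'
      · exact h'
      · exact absurd h.1 (not_lt.mpr h'.1.le)
    have := ih (by omega) h1
    obtain ⟨a, b, c, d⟩ := h
    push_cast
    constructor <;> omega

lemma chainR {k : ℕ} {X0 X1 Y0 Y1 : ℕ → ℤ}
    (hN : ∀ j, j + 2 < k → Nst X0 X1 Y0 Y1 (j+1) j ∨ Nst X0 X1 Y0 Y1 (j+1) (j+2))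
    (hle : ∀ i, i < k → X0 i ≤ X1 i ∧ Y0 i ≤ Y1 i) :
    ∀ d j, j + 3 + d = k → Nst X0 X1 Y0 Y1 (j+1) (j+2) →
      2 * ((d:ℤ) + 1) ≤ X1 (j+1) - X0 (j+1) ∧ 2 * ((d:ℤ) + 1) ≤ Y1 (j+1) - Y0 (j+1) := by
  intro d
  induction d with
  | zero =>
    intro j hk h
    have := hle (j+2) (by omega)
    obtain ⟨a, b, c, d⟩ := h
    push_cast
    constructor <;> omega
  | succ d ih =>
    intro j hk h
    have h1 : Nst X0 X1 Y0 Y1 (j+1+1) (j+1+2) := by
      rcases hN (j+1) (by omega) with h' | h'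
      · exact absurd h.1 (not_lt.mpr h'.1.le)
      · exact h'
    have := ih (j+1) (by omega) h1
    rw [show j + 1 + 1 = j + 2 from rfl] at this
    obtain ⟨a, b, c, d⟩ := h
    push_cast
    constructor <;> omega

lemma exists_ext (l : List (ℤ × ℤ)) (hl : l ≠ []) : ∃ x0 x1 y0 y1 : ℤ,
    (∀ p ∈ l, x0 ≤ p.1 ∧ p.1 ≤ x1 ∧ y0 ≤ p.2 ∧ p.2 ≤ y1) ∧
    (∃ p ∈ l, p.1 = x0) ∧ (∃ p ∈ l, p.1 = x1) ∧ (∃ p ∈ l, p.2 = y0) ∧ (∃ p ∈ l, p.2 = y1) := by
  have hne : l.toFinset.Nonempty := by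
    obtain ⟨a, ha⟩ := List.exists_mem_of_ne_nil l hl
    exact ⟨a, List.mem_toFinset.mpr ha⟩
  obtain ⟨a, ha, ha'⟩ := Finset.exists_min_image l.toFinset Prod.fst hne
  obtain ⟨b, hb, hb'⟩ := Finset.exists_max_image l.toFinset Prod.fst hne
  obtain ⟨c, hc, hc'⟩ := Finset.exists_min_image l.toFinset Prod.snd hne
  obtain ⟨d, hd, hd'⟩ := Finset.exists_max_image l.toFinset Prod.snd hne
  rw [List.mem_toFinset] at ha hb hc hd
  refine ⟨a.1, b.1, c.2, d.2, fun p hp => ?_, ⟨a, ha, rfl⟩, ⟨b, hb, rfl⟩, ⟨c, hc, rfl⟩,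
    ⟨d, hd, rfl⟩⟩
  have hp' := List.mem_toFinset.mpr hp
  exact ⟨ha' p hp', hb' p hp', hc' p hp', hd' p hp'⟩

/-! ### application to a drawing -/

section app

variable {n : ℕ} (D : UpwardDrawing (G n))

/-- corner list of an edge, indexed by naturals -/
def cor (u v : ℕ) : List (ℤ × ℤ) :=
  if h : u < n ∧ v < n then
    D.pos ⟨u, h.1⟩ :: (D.bends ⟨u, h.1⟩ ⟨v, h.2⟩ ++ [D.pos ⟨v, h.2⟩]) else []

noncomputable def Qn (u : ℕ) : ℂ := if h : u < n then toC (D.pos ⟨u, h⟩) else 0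

lemma cor_eq {u v : ℕ} (hu : u < n) (hv : v < n) :
    cor D u v = D.pos ⟨u, hu⟩ :: (D.bends ⟨u, hu⟩ ⟨v, hv⟩ ++ [D.pos ⟨v, hv⟩]) :=
  dif_pos ⟨hu, hv⟩

lemma good : Good n (fun u v => chain (cor D u v)) (Qn D) where
  pc u v _ hu hv := by
    simp only [cor_eq D hu hv]
    exact chain_pathConnected _ _
  left u v _ hu hv := by
    simp only [cor_eq D hu hv, Qn, dif_pos hu]
    exact mem_chain_of_mem (by simp)
  right u v _ hu hv := by
    simp only [cor_eq D hu hv, Qn, dif_pos hv]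
    exact mem_chain_of_mem (by simp)
  dis u v u' v' h h' hu hv hu' hv' d1 d2 d3 d4 := by
    simp only [cor_eq D hu hv, cor_eq D hu' hv']
    rw [Set.disjoint_left]
    intro z hz hz'
    obtain ⟨w, hw, hw', -⟩ := D.noncross ⟨u, hu⟩ ⟨v, hv⟩ ⟨u', hu'⟩ ⟨v', hv'⟩ h h'
      (by simp [d1]) z hz hz'
    rcases hw with rfl | rfl <;> simp [Fin.ext_iff] at hw' <;> omega

lemma cor_bound {W H : ℕ} {x y : ℤ}
    (h1 : ∀ v, x ≤ (D.pos v).1 ∧ (D.pos v).1 ≤ x + W ∧ y ≤ (D.pos v).2 ∧ (D.pos v).2 ≤ y + H)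
    (h2 : ∀ u v, G n u v → ∀ p ∈ D.bends u v, x ≤ p.1 ∧ p.1 ≤ x + W ∧ y ≤ p.2 ∧ p.2 ≤ y + H)
    {u v : ℕ} (hr : Rel u v) {p : ℤ × ℤ} (hp : p ∈ cor D u v) :
    x ≤ p.1 ∧ p.1 ≤ x + W ∧ y ≤ p.2 ∧ p.2 ≤ y + H := by
  by_cases h : u < n ∧ v < n
  · rw [cor_eq D h.1 h.2] at hp
    simp only [List.mem_cons, List.mem_append, List.not_mem_nil, or_false] at hp
    rcases hp with rfl | hp | rfl
    · exact h1 _
    · exact h2 _ _ (by exact hr) p hp
    · exact h1 _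
  · rw [cor, dif_neg h] at hp
    simp at hp

/-- corner list of the cycle of level `j` -/
def lK (j : ℕ) : List (ℤ × ℤ) :=
  cor D (7*j+0) (7*j+1) ++ (cor D (7*j+0) (7*j+2) ++ (cor D (7*j+3) (7*j+1) ++
    cor D (7*j+3) (7*j+2)))

lemma lK_rel {j : ℕ} {p : ℤ × ℤ} (hp : p ∈ lK D j) : ∃ u v, Rel u v ∧ p ∈ cor D u v := by
  simp only [lK, List.mem_append] at hp
  rcases hp with hp | hp | hp | hp
  · exact ⟨_, _, ⟨j, (0,1), by simp [E0], rfl, rfl⟩, hp⟩
  · exact ⟨_, _, ⟨j, (0,2), by simp [E0], rfl, rfl⟩, hp⟩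
  · exact ⟨_, _, ⟨j, (3,1), by simp [E0], rfl, rfl⟩, hp⟩
  · exact ⟨_, _, ⟨j, (3,2), by simp [E0], rfl, rfl⟩, hp⟩

lemma K_eq (j : ℕ) : K (fun u v => chain (cor D u v)) j =
    chain (cor D (7*j+0) (7*j+1)) ∪ (chain (cor D (7*j+0) (7*j+2)) ∪
      (chain (cor D (7*j+3) (7*j+1)) ∪ chain (cor D (7*j+3) (7*j+2)))) := by
  simp only [K, Ul, List.mem_cons, List.not_mem_nil, or_false, iUnion_iUnion_eq_or_left,
      iUnion_iUnion_eq_left]

lemma lK_mem_K {j : ℕ} {p : ℤ × ℤ} (hp : p ∈ lK D j) :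
    toC p ∈ K (fun u v => chain (cor D u v)) j := by
  rw [K_eq]
  simp only [lK, List.mem_append] at hp
  rcases hp with hp | hp | hp | hp
  · exact Or.inl (mem_chain_of_mem hp)
  · exact Or.inr (Or.inl (mem_chain_of_mem hp))
  · exact Or.inr (Or.inr (Or.inl (mem_chain_of_mem hp)))
  · exact Or.inr (Or.inr (Or.inr (mem_chain_of_mem hp)))

lemma K_sub_box {j : ℕ} {x0 x1 y0 y1 : ℤ}
    (h : ∀ p ∈ lK D j, x0 ≤ p.1 ∧ p.1 ≤ x1 ∧ y0 ≤ p.2 ∧ p.2 ≤ y1) :
    K (fun u v => chain (cor D u v)) j ⊆ Box x0 x1 y0 y1 := by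
  have key : ∀ p ∈ lK D j, toC p ∈ Box x0 x1 y0 y1 := by
    intro p hp
    obtain ⟨a, b, c, d⟩ := h p hp
    refine ⟨?_, ?_, ?_, ?_⟩ <;> simp only [toC] <;> exact_mod_cast ‹_›
  rw [K_eq]
  refine union_subset (chain_subset (box_convex _ _ _ _) fun p hp => key p ?_)
    (union_subset (chain_subset (box_convex _ _ _ _) fun p hp => key p ?_)
    (union_subset (chain_subset (box_convex _ _ _ _) fun p hp => key p ?_)
    (chain_subset (box_convex _ _ _ _) fun p hp => key p ?_))) <;>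
  simp only [lK, List.mem_append] <;> tauto

lemma lK_ne {j : ℕ} (hj : 7 * (j + 1) ≤ n) : lK D j ≠ [] := by
  rw [lK, cor_eq D (by omega : 7*j+0 < n) (by omega : 7*j+1 < n)]
  simp

/-- Every poly-line upward drawing of `G n` is wide and high. -/
theorem size_ge (k m W H : ℕ) (hk : 7 * k ≤ n) (hm : 1 ≤ m) (hmk : 2 * m + 1 ≤ k)
    (hF : D.Fits W H) : 2 * m ≤ W ∧ 2 * m ≤ H := by
  obtain ⟨x, y, hF1, hF2⟩ := hF
  have g := good D
  have ex : ∀ i : ℕ, ∃ x0 x1 y0 y1 : ℤ, i < k →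
      ((∀ p ∈ lK D i, x0 ≤ p.1 ∧ p.1 ≤ x1 ∧ y0 ≤ p.2 ∧ p.2 ≤ y1) ∧
      (∃ p ∈ lK D i, p.1 = x0) ∧ (∃ p ∈ lK D i, p.1 = x1) ∧ (∃ p ∈ lK D i, p.2 = y0) ∧
      (∃ p ∈ lK D i, p.2 = y1)) := by
    intro i
    by_cases hi : i < k
    · obtain ⟨x0, x1, y0, y1, h⟩ := exists_ext (lK D i) (lK_ne D (by omega))
      exact ⟨x0, x1, y0, y1, fun _ => h⟩
    · exact ⟨0, 0, 0, 0, fun h => absurd h hi⟩
  choose X0 X1 Y0 Y1 hX using ex
  have hle : ∀ i, i < k → X0 i ≤ X1 i ∧ Y0 i ≤ Y1 i := by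
    intro i hi
    obtain ⟨h1, ⟨p, hp, -⟩, -⟩ := hX i hi
    have := h1 p hp
    omega
  -- a neighbour level that is not strictly inside reaches the outside
  have esc : ∀ i l, i < k → l < k → ¬ Nst X0 X1 Y0 Y1 i l → ∃ z ∈ K (fun u v => chain (cor D u v)) l,
      z.re ≤ X0 i ∨ X1 i ≤ z.re ∨ z.im ≤ Y0 i ∨ Y1 i ≤ z.im := by
    intro i l hi hl hns
    obtain ⟨-, ⟨p0, hp0, e0⟩, ⟨p1, hp1, e1⟩, ⟨p2, hp2, e2⟩, ⟨p3, hp3, e3⟩⟩ := hX l hl
    unfold Nst at hns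
    by_cases c0 : X0 i < X0 l
    · by_cases c1 : X1 l < X1 i
      · by_cases c2 : Y0 i < Y0 l
        · have c3 : Y1 i ≤ Y1 l := by
            by_contra c3
            exact hns ⟨c0, c1, c2, not_le.mp c3⟩
          refine ⟨toC p3, lK_mem_K D hp3, Or.inr (Or.inr (Or.inr ?_))⟩
          simp only [toC, e3]; exact_mod_cast c3
        · refine ⟨toC p2, lK_mem_K D hp2, Or.inr (Or.inr (Or.inl ?_))⟩
          simp only [toC, e2]; exact_mod_cast not_lt.mp c2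
      · refine ⟨toC p1, lK_mem_K D hp1, Or.inr (Or.inl ?_)⟩
        simp only [toC, e1]; exact_mod_cast not_lt.mp c1
    · refine ⟨toC p0, lK_mem_K D hp0, Or.inl ?_⟩
      simp only [toC, e0]; exact_mod_cast not_lt.mp c0
  have hN : ∀ j, j + 2 < k → Nst X0 X1 Y0 Y1 (j+1) j ∨ Nst X0 X1 Y0 Y1 (j+1) (j+2) := by
    intro j hj
    by_contra hcon
    rw [not_or] at hcon
    obtain ⟨z, hz, hz'⟩ := esc (j+1) j (by omega) (by omega) hcon.1
    obtain ⟨w, hw, hw'⟩ := esc (j+1) (j+2) (by omega) (by omega) hcon.2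
    have d1 := K_disjoint g (i := j) (j := j+1) (by omega) (by omega) (by omega)
    have d2 := K_disjoint g (i := j+2) (j := j+1) (by omega) (by omega) (by omega)
    have hbox := K_sub_box D (hX (j+1) (by omega)).1
    have J1 := joined_outside hbox (Set.disjoint_left.mp d1 hz) (Set.disjoint_left.mp d2 hw) hz' hw'
    have J0 : JoinedIn (K (fun u v => chain (cor D u v)) (j+1))ᶜ (Qn D (7*j)) z :=
      ((K_pathConnected g (j := j) (by omega)).joinedIn _ (Q_mem_K g (by omega)) _ hz).mono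
        (Set.subset_compl_iff_disjoint_right.mpr d1)
    have J2 : JoinedIn (K (fun u v => chain (cor D u v)) (j+1))ᶜ w (Qn D (7*(j+2))) :=
      ((K_pathConnected g (j := j+2) (by omega)).joinedIn _ hw _ (Q_mem_K g (by omega))).mono
        (Set.subset_compl_iff_disjoint_right.mpr d2)
    exact g.core (j := j) (by omega) ((J0.trans J1).trans J2)
  -- widths
  have hwid : 2 * (m : ℤ) ≤ X1 m - X0 m ∧ 2 * (m : ℤ) ≤ Y1 m - Y0 m := by
    obtain ⟨j, rfl⟩ : ∃ j, m = j + 1 := ⟨m - 1, by omega⟩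
    rcases hN j (by omega) with h | h
    · have := chainL hN hle j (by omega) h
      push_cast; exact this
    · obtain ⟨d, hd⟩ : ∃ d, j + 3 + d = k := ⟨k - (j + 3), by omega⟩
      have := chainR hN hle d j hd h
      push_cast
      constructor <;> omega
  obtain ⟨-, ⟨p0, hp0, e0⟩, ⟨p1, hp1, e1⟩, ⟨p2, hp2, e2⟩, ⟨p3, hp3, e3⟩⟩ := hX m (by omega)
  have b : ∀ p ∈ lK D m, x ≤ p.1 ∧ p.1 ≤ x + W ∧ y ≤ p.2 ∧ p.2 ≤ y + H := by
    intro p hp
    obtain ⟨u, v, hr, hp⟩ := lK_rel D hp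
    exact cor_bound D hF1 hF2 hr hp
  have := b p0 hp0
  have := b p1 hp1
  have := b p2 hp2
  have := b p3 hp3
  constructor <;> omega

end app

end Pool.Agent.R32.BipDag
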